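import Mathlib
import Pool.Agent.Lib_MP_ff27c1_cb.Main

/-!
# The primes and systems of complexity `2^(o(√n))`

There is one sign sequence `f` which, along the primes, is orthogonal to every system of complexity
`2^(o(√n))`, in particular to maps of finite-dimensional spaces whose iterates have Hölder
constants `2^(o(√n))` and to nonexpansive extensions of these of modulus `o(1 / log)`.
A correlation with a system forces large complexity, and a system which realises `f` on the primes
has complexity at least `2^(√n / 64)`.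
-/

open Finset Filter Topology Pool.Agent.PrimeComplexity

namespace Pool.Agent.Results.MP_ff27c1_an.ComplexityBarrier

theorem result : ∃ f : ℕ → ℂ, (∀ n, f n = 1 ∨ f n = -1) ∧
    -- (a) one sequence is orthogonal along the primes to all systems of complexity `2^(o(√n))`
    (∀ (X : Type) (_ : MetricSpace X) (_ : CompactSpace X) (T : X → X) (x : X) (F : X → ℂ),
      Continuous F → LowComplexity T x →
      Tendsto (fun N : ℕ => (∑ p ∈ (Finset.range (N + 1)).filter Nat.Prime,
        f p * F (T^[p] x)) / (Nat.primeCounting N : ℂ)) atTop (𝓝 0)) ∧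
    -- (b) in particular when the iterates have Hölder constants `2^(o(√n))`
    (∀ (X : Type) (_ : MetricSpace X) (_ : CompactSpace X) (T : X → X) (x : X) (F : X → ℂ),
      Continuous F → FiniteBoxDim X → SlowGrowth T →
      Tendsto (fun N : ℕ => (∑ p ∈ (Finset.range (N + 1)).filter Nat.Prime,
        f p * F (T^[p] x)) / (Nat.primeCounting N : ℂ)) atTop (𝓝 0)) ∧
    -- (c) and for nonexpansive extensions of modulus `o(1 / log)` of such systems, with any
    -- compact fibre
    (∀ (Z Y : Type) (_ : MetricSpace Z) (_ : CompactSpace Z) (_ : MetricSpace Y)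
      (_ : CompactSpace Y) (S : Z → Z) (h : Z → Y → Y),
      FiniteBoxDim Z → SlowGrowth S → Nonexpansive h → LogModulus h →
      ∀ (w : Z × Y) (F : Z × Y → ℂ), Continuous F →
        Tendsto (fun N : ℕ => (∑ p ∈ (Finset.range (N + 1)).filter Nat.Prime,
          f p * F ((fibreExt S h)^[p] w)) / (Nat.primeCounting N : ℂ)) atTop (𝓝 0)) ∧
    -- (c') for instance for skew products of the torus with a cocycle of modulus `o(1 / log)`
    (∀ (α : AddCircle (1 : ℝ)) (h : AddCircle (1 : ℝ) → AddCircle (1 : ℝ)),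
      LogModulus (fun u v : AddCircle (1 : ℝ) => v + h u) →
      ∀ (w : AddCircle (1 : ℝ) × AddCircle (1 : ℝ))
        (F : AddCircle (1 : ℝ) × AddCircle (1 : ℝ) → ℂ), Continuous F →
        Tendsto (fun N : ℕ => (∑ p ∈ (Finset.range (N + 1)).filter Nat.Prime,
          f p * F ((fibreExt (fun u => u + α) fun u v => v + h u)^[p] w)) /
            (Nat.primeCounting N : ℂ)) atTop (𝓝 0)) ∧
    -- (d) a correlation at `N` forces large complexity at the length `⌊log₂ N⌋²`
    (∀ δ : ℝ, 0 < δ → δ ≤ 1 → ∀ (X : Type) (_ : MetricSpace X) (_ : CompactSpace X) (T : X → X)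
      (x : X) (F : X → ℂ), Continuous F → (∀ y, ‖F y‖ ≤ 1) →
      ∃ ε : ℝ, 0 < ε ∧ ∃ N₀ : ℕ, ∀ N : ℕ, N₀ ≤ N →
        δ * Nat.primeCounting N ≤
          ‖∑ p ∈ (Finset.range (N + 1)).filter Nat.Prime, f p * F (T^[p] x)‖ →
        ∀ s : Finset X, SpansOrbit T x (Nat.log 2 N ^ 2) ε s →
          (N : ℝ) ^ (δ ^ 2 / 256) ≤ (s.card : ℝ)) ∧
    -- (e) a system which realises `f` on the primes has complexity at least `2^(√n / 64)`
    (∀ (X : Type) (_ : MetricSpace X) (_ : CompactSpace X) (T : X → X) (x : X) (F : X → ℂ),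
      Continuous F → (∀ p : ℕ, p.Prime → F (T^[p] x) = f p) →
      ∃ ε : ℝ, 0 < ε ∧ ∃ n₀ : ℕ, ∀ n : ℕ, n₀ ≤ n → ∀ s : Finset X, SpansOrbit T x n ε s →
        (2 : ℝ) ^ (√(n : ℝ) / 64) ≤ (s.card : ℝ)) :=
  Pool.Agent.PrimeComplexity.main

end Pool.Agent.Results.MP_ff27c1_an.ComplexityBarrier
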