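import Mathlib
import Pool.Agent.Lib_MP_ff27c1_an.Main

set_option autoImplicit false

namespace Pool.Agent.Results.MP_ff27c1_an.CubeCriterion

open Pool.Agent.Lib_MP_ff27c1_an

/-- `S` is an interpolation set for distal systems: every bounded `f` is realised on `S` as
`n ↦ F (T^n x)` for a distal homeomorphism `T` of a compact metric space, a point `x` and a
continuous `F`. -/
def IsDistalInterpolationSet (S : Set ℕ) : Prop :=
  ∀ f : ℕ → ℂ, (∃ C : ℝ, ∀ n, ‖f n‖ ≤ C) →
    ∃ (X : Type) (_ : MetricSpace X) (_ : CompactSpace X) (T : X ≃ₜ X),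
      (∀ x y : X, x ≠ y → ∃ ε : ℝ, 0 < ε ∧ ∀ n : ℕ,
          ε ≤ dist ((⇑T)^[n] x) ((⇑T)^[n] y) ∧
          ε ≤ dist ((⇑T.symm)^[n] x) ((⇑T.symm)^[n] y)) ∧
      ∃ (x : X) (F : X → ℂ), Continuous F ∧
        ∀ n : ℕ, n ∈ S → F ((⇑T)^[n] x) = f n

/-- The sequence `a i = (2^(i+2))!`: all its finite partial-sum cubes are admissible. -/
theorem cube_admissible (m p : ℕ) (hp : p.Prime) :
    ∃ r : ℕ, ∀ t ⊆ Finset.range m, ¬ (∑ i ∈ t, Nat.factorial (2 ^ (i + 2))) ≡ r [MOD p] := by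
  classical
  -- `k` is the first index with `p ≤ 2^(k+2)`
  obtain ⟨k, hk1, hk2⟩ : ∃ k, p ≤ 2 ^ (k + 2) ∧ 2 ^ k < p := by
    have hex : ∃ k, p ≤ 2 ^ (k + 2) := ⟨p, by
      have := Nat.lt_two_pow_self (n := p)
      have h2 : 2 ^ p ≤ 2 ^ (p + 2) := Nat.pow_le_pow_right (by norm_num) (by omega)
      omega⟩
    refine ⟨Nat.find hex, Nat.find_spec hex, ?_⟩
    rcases Nat.eq_zero_or_pos (Nat.find hex) with h0 | h0
    · rw [h0]; simpa using hp.one_lt
    · have h1 := Nat.find_min hex (m := Nat.find hex - 1) (by omega)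
      push Not at h1
      refine lt_of_le_of_lt (Nat.pow_le_pow_right (by norm_num) (by omega)) h1
  have hdvd : ∀ i, k ≤ i → p ∣ Nat.factorial (2 ^ (i + 2)) := by
    intro i hi
    refine Nat.dvd_factorial hp.pos (hk1.trans (Nat.pow_le_pow_right (by norm_num) (by omega)))
  let R : Finset ℕ := (Finset.range k).powerset.image
    fun t => (∑ i ∈ t, Nat.factorial (2 ^ (i + 2))) % p
  have hR : R.card < (Finset.range p).card := by
    calc R.card ≤ (Finset.range k).powerset.card := Finset.card_image_le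
      _ = 2 ^ k := by rw [Finset.card_powerset, Finset.card_range]
      _ < p := hk2
      _ = (Finset.range p).card := (Finset.card_range p).symm
  obtain ⟨r, hr, hrR⟩ := Finset.exists_mem_notMem_of_card_lt_card hR
  refine ⟨r, fun t _ hmod => hrR ?_⟩
  rw [Finset.mem_range] at hr
  refine Finset.mem_image.2 ⟨t.filter (· < k), ?_, ?_⟩
  · rw [Finset.mem_powerset]
    intro i hi
    exact Finset.mem_range.2 (Finset.mem_filter.1 hi).2
  · have hsplit := Finset.sum_filter_add_sum_filter_not t (· < k)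
      (fun i => Nat.factorial (2 ^ (i + 2)))
    have hz : p ∣ ∑ i ∈ t.filter (fun i => ¬ i < k), Nat.factorial (2 ^ (i + 2)) :=
      Finset.dvd_sum fun i hi => hdvd i (not_lt.1 (Finset.mem_filter.1 hi).2)
    have h1 : (∑ i ∈ t.filter (· < k), Nat.factorial (2 ^ (i + 2))) ≡ r [MOD p] := by
      refine Nat.ModEq.trans ?_ hmod
      rw [← hsplit]
      have h3 := (Nat.ModEq.refl (n := p) (∑ i ∈ t.filter (· < k), Nat.factorial (2 ^ (i + 2)))).add
        ((Nat.modEq_zero_iff_dvd.2 hz).symm)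
      rwa [Nat.add_zero] at h3
    have h2 : (∑ i ∈ t.filter (· < k), Nat.factorial (2 ^ (i + 2))) % p = r % p := h1
    rw [h2, Nat.mod_eq_of_lt hr]

/-- A set of naturals is an interpolation set for distal systems iff it does not contain infinitely
many translates of every finite initial cube of some infinite sequence of positive integers; the
case of the primes; and the prime tuples conjecture gives a negative answer for the primes. -/
theorem result :
    (∀ S : Set ℕ, IsDistalInterpolationSet S ↔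
      ∀ a : ℕ → ℕ, (∀ i, 0 < a i) →
        ∃ m : ℕ, {n : ℕ | ∀ t ⊆ Finset.range m, n + ∑ i ∈ t, a i ∈ S}.Finite) ∧
    (IsDistalInterpolationSet {p : ℕ | p.Prime} ↔
      ∀ a : ℕ → ℕ, (∀ i, 0 < a i) →
        ∃ m : ℕ, {n : ℕ | ∀ t ⊆ Finset.range m, (n + ∑ i ∈ t, a i).Prime}.Finite) ∧
    ((∀ H : Finset ℕ, (∀ p : ℕ, p.Prime → ∃ r : ℕ, ∀ h ∈ H, ¬ h ≡ r [MOD p]) →
        {n : ℕ | ∀ h ∈ H, (n + h).Prime}.Infinite) →
      ¬ IsDistalInterpolationSet {p : ℕ | p.Prime}) := by
  classical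
  have main : ∀ S : Set ℕ, IsDistalInterpolationSet S ↔
      ∀ a : ℕ → ℕ, (∀ i, 0 < a i) →
        ∃ m : ℕ, {n : ℕ | ∀ t ⊆ Finset.range m, n + ∑ i ∈ t, a i ∈ S}.Finite :=
    fun S => interpolation_iff S
  refine ⟨main, main {p : ℕ | p.Prime}, ?_⟩
  intro htup hQ
  obtain ⟨m, hm⟩ := (main {p : ℕ | p.Prime}).1 hQ (fun i => Nat.factorial (2 ^ (i + 2)))
    fun i => Nat.factorial_pos _
  refine htup ((Finset.range m).powerset.image fun t => ∑ i ∈ t, Nat.factorial (2 ^ (i + 2)))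
    ?_ ?_
  · intro p hp
    obtain ⟨r, hr⟩ := cube_admissible m p hp
    refine ⟨r, ?_⟩
    intro h hh
    obtain ⟨t, ht, rfl⟩ := Finset.mem_image.1 hh
    exact hr t (Finset.mem_powerset.1 ht)
  · refine hm.subset ?_
    intro n hn t ht
    exact hn _ (Finset.mem_image.2 ⟨t, Finset.mem_powerset.2 ht, rfl⟩)

end Pool.Agent.Results.MP_ff27c1_an.CubeCriterion
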