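import Mathlib
import Pool.Agent.Lib_MP_ff27c1_an.Main
import Pool.Agent.Lib_MP_ff27c1_w.Clu

set_option autoImplicit false

namespace Pool.Agent.Results.MP_ff27c1_an.ThinClusters

open Filter

/-- `S` is an interpolation set for distal systems: every bounded `f` is realised on `S` as
`n ↦ F (T^n x)` for a distal homeomorphism `T` of a compact metric space, a point `x` and a
continuous `F`. -/
def IsDistalInterpolationSet (S : Set ℕ) : Prop :=
  ∀ f : ℕ → ℂ, (∃ C : ℝ, ∀ n, ‖f n‖ ≤ C) →
    ∃ (X : Type) (_ : MetricSpace X) (_ : CompactSpace X) (T : X ≃ₜ X),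
      (∀ x y : X, x ≠ y → ∃ ε : ℝ, 0 < ε ∧ ∀ n : ℕ,
          ε ≤ dist ((⇑T)^[n] x) ((⇑T)^[n] y) ∧
          ε ≤ dist ((⇑T.symm)^[n] x) ((⇑T.symm)^[n] y)) ∧
      ∃ (x : X) (F : X → ℂ), Continuous F ∧
        ∀ n : ℕ, n ∈ S → F ((⇑T)^[n] x) = f n

/-- The primes `p` such that there are more than `A` primes in the window `[p, p + w p]`. -/
def clusters (A : ℕ) (w : ℕ → ℕ) : Set ℕ :=
  {p : ℕ | p.Prime ∧ A < ((Finset.Icc p (p + w p)).filter Nat.Prime).card}

/-- For every `A ≥ 1` there is a function `w` tending to infinity such that the set of the primes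
`p` with more than `A` primes in `[p, p + w p]` has at most `x / (log x) ^ A` elements up to `x`,
the other primes form an interpolation set for distal systems, and the set of all primes is one iff
this thin set of clustered primes is one. -/
theorem result (A : ℕ) (hA : 1 ≤ A) : ∃ w : ℕ → ℕ, Tendsto w atTop atTop ∧
    (∀ x : ℕ, 2 ≤ x → ({p : ℕ | p ≤ x ∧ p ∈ clusters A w}.ncard : ℝ) ≤ x / Real.log x ^ A) ∧
    IsDistalInterpolationSet {p : ℕ | p.Prime ∧ p ∉ clusters A w} ∧
    (IsDistalInterpolationSet {p : ℕ | p.Prime} ↔ IsDistalInterpolationSet (clusters A w)) := by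
  have main : ∀ S : Set ℕ, IsDistalInterpolationSet S ↔ Lib_MP_ff27c1_w.Crit S :=
    fun S => Lib_MP_ff27c1_an.interpolation_iff S
  obtain ⟨w, hw, hcount⟩ := Lib_MP_ff27c1_w.exists_slow A hA
  refine ⟨w, hw, hcount, ?_, ?_⟩
  · rw [main]
    exact Lib_MP_ff27c1_w.crit_diff A hw
  · rw [main, main]
    exact Lib_MP_ff27c1_w.crit_iff A hw

end Pool.Agent.Results.MP_ff27c1_an.ThinClusters
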